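import Pool.Agent.Helper18.CC.Final
import Pool.Agent.Helper18.CC.Defs2

/-!
# Consequences of the failure of the Petersen colouring conjecture for the cycle-continuous order

Assume that some bridgeless graph has no cycle-continuous map to the Petersen graph. Then the order
has no atom, every bridgeless graph has a strictly smaller bridgeless graph below it, and for every
`N` some bridgeless graph has no cycle-continuous map to any bridgeless graph with at most `N`
edges. No finite set of bridgeless graphs is a set of targets for all bridgeless graphs.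
-/

set_option autoImplicit false

namespace Pool.Agent.Helper71.CCX

open Pool.Agent.Helper18.CC

open scoped Classical

noncomputable section

theorem not_hasCutEdge_iff {G : MGraph} : ¬ HasCutEdge G ↔ G.Bridgeless := by
  rw [MGraph.bridgeless_iff]
  constructor
  · intro h e X hX
    exact h ⟨e, X, hX⟩
  · rintro h ⟨e, X, hX⟩
    exact h e X hX

/-- The failure of the Petersen colouring conjecture. -/
def Fails : Prop := ∃ G : MGraph, ¬ HasCutEdge G ∧ ¬ Succ G petersen

theorem Universal.succ_petersen {A : MGraph} (hA : Universal A) : Succ A petersen := by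
  obtain ⟨B, hB⟩ := exists_minUniversal hA
  exact (hB.1.2 A hA.1).trans hB.succ_petersen

theorem not_universal (h : Fails) (A : MGraph) : ¬ Universal A := by
  intro hA
  obtain ⟨G, hG, hG2⟩ := h
  exact hG2 ((hA.2 G (not_hasCutEdge_iff.1 hG)).trans (Universal.succ_petersen hA))

theorem not_atomic (h : Fails) (A : MGraph) : ¬ IsAtomic A :=
  fun hA => not_universal h A hA.universal

/-- Every bridgeless graph has a strictly smaller bridgeless graph. -/
theorem exists_smaller (h : Fails) (G : MGraph) (hG : ¬ HasCutEdge G) :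
    ∃ H : MGraph, ¬ HasCutEdge H ∧ Succ G H ∧ ¬ Succ H G := by
  by_contra hcon
  push Not at hcon
  have hb := not_hasCutEdge_iff.1 hG
  refine not_atomic h G ⟨hb.not_isMinimal, fun H hGH hne => ?_⟩
  by_cases hH : HasCutEdge H
  · refine isMinimal_of_not_bridgeless ?_
    rw [← not_hasCutEdge_iff]
    exact not_not.2 hH
  · exact absurd ⟨hGH, hcon H hH hGH⟩ hne

/-- The code of a graph with `k` edges: the family of its cycles under some numbering. -/
def HasCode {N : ℕ} (H : MGraph) (c : (k : Fin (N + 1)) × Set (Set (Fin k))) : Prop :=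
  ∃ e : H.E ≃ Fin c.1, ∀ S : Set (Fin c.1), H.IsCycle (e ⁻¹' S) ↔ S ∈ c.2

theorem exists_code {N : ℕ} (H : MGraph) (hN : Nat.card H.E ≤ N) :
    ∃ c : (k : Fin (N + 1)) × Set (Set (Fin k)), HasCode H c := by
  have e : H.E ≃ Fin (Nat.card H.E) := Finite.equivFin H.E
  exact ⟨⟨⟨Nat.card H.E, by omega⟩, {S | H.IsCycle (e ⁻¹' S)}⟩, e, fun S => Iff.rfl⟩

theorem HasCode.succ {N : ℕ} {H H' : MGraph} {c : (k : Fin (N + 1)) × Set (Set (Fin k))}
    (h : HasCode H c) (h' : HasCode H' c) : Succ H H' := by
  obtain ⟨e, he⟩ := h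
  obtain ⟨e', he'⟩ := h'
  refine ⟨fun a => e'.symm (e a), fun C hC => ?_⟩
  have h1 : e' ⁻¹' (e'.symm ⁻¹' C) = C := by
    ext a; simp
  have h2 : e'.symm ⁻¹' C ∈ c.2 := by
    rw [← he', h1]; exact hC
  exact (he _).2 h2

/-- A common lower bound. -/
theorem exists_lower {ι : Type} (s : Finset ι) (F : ι → MGraph)
    (hF : ∀ i ∈ s, (F i).Bridgeless) : ∃ G : MGraph, G.Bridgeless ∧ ∀ i ∈ s, Succ (F i) G := by
  induction s using Finset.induction_on with
  | empty => exact ⟨petersen, petersen_bridgeless, by simp⟩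
  | insert a s ha ih =>
    obtain ⟨G, hG, hG2⟩ := ih fun i hi => hF i (Finset.mem_insert_of_mem hi)
    refine ⟨(F a).sum G, bridgeless_sum (hF a (Finset.mem_insert_self _ _)) hG, ?_⟩
    intro i hi
    rcases Finset.mem_insert.1 hi with rfl | hi
    · exact succ_sum_left
    · exact (hG2 i hi).trans succ_sum_right

/-- No bounded family of targets. -/
theorem no_bounded_target (h : Fails) (N : ℕ) :
    ∃ G : MGraph, ¬ HasCutEdge G ∧
      ∀ H : MGraph, ¬ HasCutEdge H → Nat.card H.E ≤ N → ¬ Succ G H := by
  have : Fintype ((k : Fin (N + 1)) × Set (Set (Fin k))) := inferInstance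
  have key : ∀ c : (k : Fin (N + 1)) × Set (Set (Fin k)), ∃ G : MGraph, G.Bridgeless ∧
      ∀ H : MGraph, H.Bridgeless → HasCode H c → ¬ Succ G H := by
    intro c
    by_cases hc : ∃ H : MGraph, H.Bridgeless ∧ HasCode H c
    · obtain ⟨H, hH, hHc⟩ := hc
      have := not_universal h H
      unfold Universal at this
      push Not at this
      obtain ⟨G, hG, hG2⟩ := this hH
      exact ⟨G, hG, fun H' _ hc' hs => hG2 (hs.trans (hc'.succ hHc))⟩
    · push Not at hc
      exact ⟨petersen, petersen_bridgeless, fun H hH hHc => absurd hHc (hc H hH)⟩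
  choose F hF1 hF2 using key
  obtain ⟨G, hG, hG2⟩ := exists_lower Finset.univ F fun i _ => hF1 i
  refine ⟨G, not_hasCutEdge_iff.2 hG, fun H hH hN hs => ?_⟩
  obtain ⟨c, hc⟩ := exists_code H hN
  exact hF2 c H (not_hasCutEdge_iff.1 hH) hc ((hG2 c (Finset.mem_univ _)).trans hs)

end

end Pool.Agent.Helper71.CCX
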